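import Pool.Agent.Lib_helper25.PV.Defs

/-! Project PV (MP_b08f5f_an), block B4b: absolutely continuous laws relax, from mixing. -/

set_option autoImplicit false

namespace Pool.Agent.Lib_helper25.PV

open MeasureTheory Filter Topology Set
open scoped ComplexConjugate

noncomputable section

theorem B4b_inertia_continuous (N : ℕ) : Continuous (inertia (N := N)) := by
  unfold inertia; fun_prop

theorem B4b_norm_le_of_inertia {N : ℕ} {R : ℝ} {z : Conf N} (h : inertia z ≤ R) :
    ‖z‖ ≤ √R := by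
  have hR : 0 ≤ R := le_trans (Finset.sum_nonneg fun i _ => by positivity) h
  refine (pi_norm_le_iff_of_nonneg (Real.sqrt_nonneg _)).2 fun i => ?_
  refine Real.le_sqrt_of_sq_le ?_
  refine le_trans ?_ h
  exact Finset.single_le_sum (f := fun i => ‖z i‖ ^ 2) (fun i _ => by positivity)
    (Finset.mem_univ i)

theorem B4b_vol_lt_top {N : ℕ} (R : ℝ) : volume {z : Conf N | inertia z ≤ R} < ⊤ := by
  refine lt_of_le_of_lt (measure_mono ?_) (measure_closedBall_lt_top (x := (0 : Conf N)) (r := √R))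
  intro z hz
  simpa [Metric.mem_closedBall, dist_zero_right] using B4b_norm_le_of_inertia hz

theorem B4b_measSet {N : ℕ} (R : ℝ) : MeasurableSet {z : Conf N | inertia z ≤ R} :=
  measurableSet_le (B4b_inertia_continuous N).measurable measurable_const

/-- a bounded measurable function supported in `{inertia ≤ R}` is in `L²` -/
theorem B4b_memLp {N : ℕ} {f : Conf N → ℂ} (hf : Measurable f) {C : ℝ} (hC : ∀ z, ‖f z‖ ≤ C)
    (R : ℝ) : MemLp ({z : Conf N | inertia z ≤ R}.indicator f) 2 volume := by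
  rw [memLp_indicator_iff_restrict (B4b_measSet R)]
  have : IsFiniteMeasure (volume.restrict {z : Conf N | inertia z ≤ R}) :=
    ⟨by rw [Measure.restrict_apply_univ]; exact B4b_vol_lt_top R⟩
  exact MemLp.of_bound hf.aestronglyMeasurable C (Eventually.of_forall hC)

/-- the pairing with the flow converges for a continuous, compactly supported density -/
theorem B4b_conv_cc {N : ℕ} (V : VFlow N)
    (hmix : ∀ f g : Conf N → ℂ, MemLp f 2 volume → MemLp g 2 volume →
      ∃ l : ℂ, Tendsto (fun t : ℝ => ∫ z, f (V.φ t z) * g z) atTop (𝓝 l))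
    {f : Conf N → ℂ} (hf : Measurable f) {C : ℝ} (hC : ∀ z, ‖f z‖ ≤ C)
    {ρ : Conf N → ℂ} (hρ : Continuous ρ) (hs : HasCompactSupport ρ) :
    ∃ l : ℂ, Tendsto (fun t : ℝ => ∫ z, f (V.φ t z) * ρ z) atTop (𝓝 l) := by
  obtain ⟨R, hR⟩ := hs.isCompact.bddAbove_image (B4b_inertia_continuous N).continuousOn
  have hR' : ∀ z, ρ z ≠ 0 → inertia z ≤ R := fun z hz =>
    hR ⟨z, subset_tsupport _ hz, rfl⟩
  obtain ⟨l, hl⟩ := hmix _ ρ (B4b_memLp hf hC R) (hρ.memLp_of_hasCompactSupport hs)
  refine ⟨l, hl.congr fun t => ?_⟩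
  refine integral_congr_ae (Eventually.of_forall fun z => ?_)
  by_cases hz : ρ z = 0
  · simp [hz]
  · have h1 : V.φ t z ∈ {z : Conf N | inertia z ≤ R} := by
      show inertia (V.φ t z) ≤ R
      rw [V.inert]; exact hR' z hz
    simp only [indicator_of_mem h1]

theorem B4b_meas_t {N : ℕ} (V : VFlow N) (t : ℝ) : Measurable (V.φ t) := (V.mp t).measurable

theorem B4b_int {N : ℕ} (V : VFlow N) {f : Conf N → ℂ} (hf : Measurable f) {C : ℝ}
    (hC : ∀ z, ‖f z‖ ≤ C) {ρ : Conf N → ℂ} (hρ : Integrable ρ) (t : ℝ) :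
    Integrable (fun z => f (V.φ t z) * ρ z) :=
  hρ.bdd_mul (c := C) (hf.comp (B4b_meas_t V t)).aestronglyMeasurable
    (Eventually.of_forall fun z => hC _)

/-- the pairing with the flow converges for every integrable density -/
theorem B4b_conv {N : ℕ} (V : VFlow N)
    (hmix : ∀ f g : Conf N → ℂ, MemLp f 2 volume → MemLp g 2 volume →
      ∃ l : ℂ, Tendsto (fun t : ℝ => ∫ z, f (V.φ t z) * g z) atTop (𝓝 l))
    {f : Conf N → ℂ} (hf : Measurable f) {C : ℝ} (hC : ∀ z, ‖f z‖ ≤ C)
    {ρ : Conf N → ℂ} (hρ : Integrable ρ) :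
    ∃ l : ℂ, Tendsto (fun t : ℝ => ∫ z, f (V.φ t z) * ρ z) atTop (𝓝 l) := by
  have hC0 : 0 ≤ C := (norm_nonneg _).trans (hC 0)
  refine cauchySeq_tendsto_of_complete ?_
  rw [Metric.cauchySeq_iff]
  intro ε hε
  obtain ⟨ρ', hs, hd, hc, hi⟩ := hρ.exists_hasCompactSupport_integral_sub_le
    (ε := ε / (4 * (C + 1))) (by positivity)
  obtain ⟨l, hl⟩ := B4b_conv_cc V hmix hf hC hc hs
  obtain ⟨T, hT⟩ := (Metric.tendsto_atTop.1 hl) (ε / 4) (by positivity)
  have key : ∀ t : ℝ, ‖(∫ z, f (V.φ t z) * ρ z) - ∫ z, f (V.φ t z) * ρ' z‖ ≤ ε / 4 * (C / (C + 1)) := by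
    intro t
    rw [← integral_sub (B4b_int V hf hC hρ t) (B4b_int V hf hC hi t)]
    calc ‖∫ z, (f (V.φ t z) * ρ z - f (V.φ t z) * ρ' z)‖
        ≤ ∫ z, C * ‖ρ z - ρ' z‖ := by
          refine norm_integral_le_of_norm_le ((hρ.sub hi).norm.const_mul C)
            (Eventually.of_forall fun z => ?_)
          rw [← mul_sub, norm_mul]
          exact mul_le_mul_of_nonneg_right (hC _) (norm_nonneg _)
      _ = C * ∫ z, ‖ρ z - ρ' z‖ := integral_const_mul _ _
      _ ≤ C * (ε / (4 * (C + 1))) := mul_le_mul_of_nonneg_left hd hC0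
      _ = ε / 4 * (C / (C + 1)) := by field_simp
  have hlt : ε / 4 * (C / (C + 1)) ≤ ε / 4 := by
    have : C / (C + 1) ≤ 1 := by rw [div_le_one (by positivity)]; linarith
    nlinarith
  refine ⟨T, fun m hm n hn => ?_⟩
  have h1 := key m
  have h2 := key n
  have h3 := hT m hm
  have h4 := hT n hn
  rw [dist_eq_norm] at h3 h4 ⊢
  have : (∫ z, f (V.φ m z) * ρ z) - (∫ z, f (V.φ n z) * ρ z) =
      ((∫ z, f (V.φ m z) * ρ z) - ∫ z, f (V.φ m z) * ρ' z) +
      ((∫ z, f (V.φ m z) * ρ' z) - l) - (((∫ z, f (V.φ n z) * ρ z) - ∫ z, f (V.φ n z) * ρ' z) +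
      ((∫ z, f (V.φ n z) * ρ' z) - l)) := by ring
  rw [this]
  refine lt_of_le_of_lt (norm_sub_le _ _) ?_
  have h5 := norm_add_le ((∫ z, f (V.φ m z) * ρ z) - ∫ z, f (V.φ m z) * ρ' z)
    ((∫ z, f (V.φ m z) * ρ' z) - l)
  have h6 := norm_add_le ((∫ z, f (V.φ n z) * ρ z) - ∫ z, f (V.φ n z) * ρ' z)
    ((∫ z, f (V.φ n z) * ρ' z) - l)
  linarith

/-- the norm of a time average -/
theorem B4b_avg_norm {N : ℕ} (V : VFlow N) {f : Conf N → ℂ} {C : ℝ}
    (hC : ∀ z, ‖f z‖ ≤ C) {T : ℝ} (hT : 0 < T) (z : Conf N) : ‖avg V 0 f T z‖ ≤ C := by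
  unfold avg
  rw [norm_mul, norm_inv, Complex.norm_real, Real.norm_of_nonneg hT.le]
  have h := intervalIntegral.norm_integral_le_of_norm_le_const (a := 0) (b := T) (C := C)
    (f := fun t : ℝ => Complex.exp (((0 : ℝ) : ℂ) * t * Complex.I) * f (V.φ t z)) (by
      intro t _; simpa using hC (V.φ t z))
  rw [sub_zero, abs_of_pos hT] at h
  rw [inv_mul_le_iff₀ hT]
  linarith [h]

/-- Fubini on a time interval -/
theorem B4b_fubini {N : ℕ} (V : VFlow N) {f : Conf N → ℂ} (hf : Measurable f) {C : ℝ}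
    (hC : ∀ z, ‖f z‖ ≤ C) {ρ : Conf N → ℂ} (hρ : Integrable ρ) {T : ℝ} (hT : 0 < T) :
    ∫ z, avg V 0 f T z * ρ z = (T : ℂ)⁻¹ * ∫ t in (0 : ℝ)..T, ∫ z, f (V.φ t z) * ρ z := by
  have hint : Integrable (fun p : ℝ × Conf N => f (V.φ p.1 p.2) * ρ p.2)
      ((volume.restrict (Ioc 0 T)).prod volume) := by
    refine Integrable.bdd_mul (c := C) (hρ.comp_snd _) (hf.comp V.meas).aestronglyMeasurable
      (Eventually.of_forall fun p => hC _)
  rw [intervalIntegral.integral_of_le hT.le]
  rw [integral_integral_swap (f := fun (t : ℝ) (z : Conf N) => f (V.φ t z) * ρ z) hint]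
  rw [← integral_const_mul]
  refine integral_congr_ae (Eventually.of_forall fun z => ?_)
  simp only [avg]
  rw [intervalIntegral.integral_of_le hT.le, mul_assoc, ← integral_mul_const]
  congr 1
  refine integral_congr_ae (Eventually.of_forall fun t => ?_)
  simp

/-- measurability in time -/
theorem B4b_meas_time {N : ℕ} (V : VFlow N) {f : Conf N → ℂ} (hf : Measurable f)
    {ρ : Conf N → ℂ} (hρ : Integrable ρ) :
    StronglyMeasurable (fun t : ℝ => ∫ z, f (V.φ t z) * ρ z) := by
  have h1 : (fun t : ℝ => ∫ z, f (V.φ t z) * ρ z) =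
      fun t : ℝ => ∫ z, f (V.φ t z) * hρ.aestronglyMeasurable.mk ρ z := by
    funext t
    refine integral_congr_ae ?_
    filter_upwards [hρ.aestronglyMeasurable.ae_eq_mk] with z hz
    rw [hz]
  rw [h1]
  have h2 : StronglyMeasurable (Function.uncurry
      (fun (t : ℝ) (z : Conf N) => f (V.φ t z) * hρ.aestronglyMeasurable.mk ρ z)) := by
    refine StronglyMeasurable.mul ?_ ?_
    · exact (hf.comp V.meas).stronglyMeasurable
    · exact hρ.aestronglyMeasurable.stronglyMeasurable_mk.comp_measurable measurable_snd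
  exact h2.integral_prod_right

/-- **B4b**, with mixing as a hypothesis -/
theorem B4b_law_limit_of {N : ℕ} (V : VFlow N)
    (hmix : ∀ f g : Conf N → ℂ, MemLp f 2 volume → MemLp g 2 volume →
      ∃ l : ℂ, Tendsto (fun t : ℝ => ∫ z, f (V.φ t z) * g z) atTop (𝓝 l))
    {f g : Conf N → ℂ} (hf : Measurable f) {C : ℝ}
    (hC : ∀ z, ‖f z‖ ≤ C) (_hg : Measurable g)
    (hfg : ∀ᵐ z, Tendsto (fun T : ℝ => avg V 0 f T z) atTop (𝓝 (g z)))
    {ρ : Conf N → ℂ} (hρ : Integrable ρ) :
    Tendsto (fun t : ℝ => ∫ z, f (V.φ t z) * ρ z) atTop (𝓝 (∫ z, g z * ρ z)) := by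
  have hC0 : 0 ≤ C := (norm_nonneg _).trans (hC 0)
  obtain ⟨l, hl⟩ := B4b_conv V hmix hf hC hρ
  -- the integral of the averages tends to `l`
  have hA : Tendsto (fun T : ℝ => ∫ z, avg V 0 f T z * ρ z) atTop (𝓝 l) := by
    have h1 : ∀ᶠ T : ℝ in atTop, (∫ s in (0 : ℝ)..1, ∫ z, f (V.φ (T * s) z) * ρ z) =
        ∫ z, avg V 0 f T z * ρ z := by
      filter_upwards [eventually_gt_atTop (0 : ℝ)] with T hT
      rw [B4b_fubini V hf hC hρ hT]
      rw [intervalIntegral.integral_comp_mul_left (fun t => ∫ z, f (V.φ t z) * ρ z) hT.ne']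
      simp
    refine Tendsto.congr' h1 ?_
    have h2 : l = ∫ _s in (0 : ℝ)..1, l := by simp
    rw [h2]
    refine intervalIntegral.tendsto_integral_filter_of_dominated_convergence
      (fun _ => ∫ z, C * ‖ρ z‖) ?_ ?_ ?_ ?_
    · refine Eventually.of_forall fun T => ?_
      exact ((B4b_meas_time V hf hρ).comp_measurable (measurable_const.mul measurable_id)).aestronglyMeasurable
    · refine Eventually.of_forall fun T => Eventually.of_forall fun s _ => ?_
      refine norm_integral_le_of_norm_le (hρ.norm.const_mul C) (Eventually.of_forall fun z => ?_)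
      rw [norm_mul]
      exact mul_le_mul_of_nonneg_right (hC _) (norm_nonneg _)
    · exact intervalIntegrable_const
    · refine Eventually.of_forall fun s hs => ?_
      rw [uIoc_of_le zero_le_one] at hs
      exact hl.comp (tendsto_id.atTop_mul_const hs.1)
  -- and to `∫ g ρ`
  have hB : Tendsto (fun T : ℝ => ∫ z, avg V 0 f T z * ρ z) atTop (𝓝 (∫ z, g z * ρ z)) := by
    refine tendsto_integral_filter_of_dominated_convergence (fun z => C * ‖ρ z‖) ?_ ?_ ?_ ?_
    · filter_upwards [eventually_gt_atTop (0 : ℝ)] with T hT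
      refine AEStronglyMeasurable.mul ?_ hρ.aestronglyMeasurable
      unfold avg
      refine AEStronglyMeasurable.const_mul ?_ _
      have h3 : StronglyMeasurable (Function.uncurry (fun (z : Conf N) (t : ℝ) =>
          Complex.exp (((0 : ℝ) : ℂ) * t * Complex.I) * f (V.φ t z))) := by
        refine StronglyMeasurable.mul ?_ ?_
        · refine Measurable.stronglyMeasurable ?_
          fun_prop
        · exact (hf.comp (V.meas.comp measurable_swap)).stronglyMeasurable
      simp only [intervalIntegral.integral_of_le hT.le]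
      exact (h3.integral_prod_right (ν := volume.restrict (Ioc 0 T))).aestronglyMeasurable
    · filter_upwards [eventually_gt_atTop (0 : ℝ)] with T hT
      refine Eventually.of_forall fun z => ?_
      rw [norm_mul]
      exact mul_le_mul_of_nonneg_right (B4b_avg_norm V hC hT z) (norm_nonneg _)
    · exact hρ.norm.const_mul C
    · filter_upwards [hfg] with z hz
      exact hz.mul_const _
  rw [tendsto_nhds_unique hA hB] at hl
  exact hl

end

end Pool.Agent.Lib_helper25.PV
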