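import Pool.Agent.Lib_helper89.PV.B4a
import Pool.Agent.Lib_helper89.PV.B4b
import Pool.Agent.Lib_helper31.PV.Dil

/-! Project PV (MP_b08f5f_an), block B4: mixing, no eigenfunctions, relaxation of laws. -/

set_option autoImplicit false

namespace Pool.Agent.Lib_helper25.PV

open MeasureTheory Filter Topology Set
open scoped ComplexConjugate

noncomputable section

theorem VFlow.mixing {N : ℕ} (V : VFlow N) {f g : Conf N → ℂ} (hf : MemLp f 2 volume)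
    (hg : MemLp g 2 volume) :
    ∃ l : ℂ, Tendsto (fun t : ℝ => ∫ z, f (V.φ t z) * g z) atTop (𝓝 l) :=
  B4a_mixing_of V (fun _ hf hs => B4_dil hf hs) hf hg

theorem VFlow.no_eigen {N : ℕ} (V : VFlow N) {κ : ℝ} (hκ : κ ≠ 0) {g : Conf N → ℂ}
    (hg : MemLp g 2 volume)
    (he : ∀ s : ℝ, ∀ᵐ z, g (V.φ s z) = Complex.exp (κ * s * Complex.I) * g z) :
    g =ᵐ[volume] 0 :=
  B4a_no_eigen_of V (fun _ _ hf hg => V.mixing hf hg) hκ hg he

theorem VFlow.law_limit {N : ℕ} (V : VFlow N) {f g : Conf N → ℂ} (hf : Measurable f) {C : ℝ}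
    (hC : ∀ z, ‖f z‖ ≤ C) (hg : Measurable g)
    (hfg : ∀ᵐ z, Tendsto (fun T : ℝ => avg V 0 f T z) atTop (𝓝 (g z)))
    {ρ : Conf N → ℂ} (hρ : Integrable ρ) :
    Tendsto (fun t : ℝ => ∫ z, f (V.φ t z) * ρ z) atTop (𝓝 (∫ z, g z * ρ z)) :=
  B4b_law_limit_of V (fun _ _ hf hg => V.mixing hf hg) hf hC hg hfg hρ

end

end Pool.Agent.Lib_helper25.PV
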