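import Pool.Agent.Lib_helper25.PV.Defs
import Pool.Agent.Lib_helper56.PV.Tauber

/-! Project PV (MP_b08f5f_an), block B4a: the vortex flow is mixing modulo its invariants. -/

set_option autoImplicit false

namespace Pool.Agent.Lib_helper25.PV

open MeasureTheory Filter Topology Set
open scoped ComplexConjugate

noncomputable section

/-- the `L²` norm of a function, as a real number -/
def B4a_n {N : ℕ} (f : Conf N → ℂ) : ℝ := (eLpNorm f 2 volume).toReal

theorem B4a_n_nonneg {N : ℕ} (f : Conf N → ℂ) : 0 ≤ B4a_n f := ENNReal.toReal_nonneg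

theorem B4a_conj {N : ℕ} {g : Conf N → ℂ} (hg : MemLp g 2 volume) :
    MemLp (fun z => conj (g z)) 2 volume := by
  refine ⟨?_, ?_⟩
  · exact Complex.continuous_conj.comp_aestronglyMeasurable hg.aestronglyMeasurable
  · refine lt_of_le_of_lt (le_of_eq ?_) hg.2
    refine eLpNorm_congr_norm_ae (Eventually.of_forall fun z => ?_)
    simp

theorem B4a_n_conj {N : ℕ} (g : Conf N → ℂ) : B4a_n (fun z => conj (g z)) = B4a_n g := by
  unfold B4a_n
  congr 1
  exact eLpNorm_congr_norm_ae (Eventually.of_forall fun z => by simp)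

/-- the pairing as an inner product -/
theorem B4a_inner {N : ℕ} {f g : Conf N → ℂ} (hf : MemLp f 2 volume) (hg : MemLp g 2 volume) :
    ∫ z, f z * g z = inner ℂ ((B4a_conj hg).toLp _) (hf.toLp _) := by
  rw [L2.inner_def]
  refine integral_congr_ae ?_
  filter_upwards [hf.coeFn_toLp, (B4a_conj hg).coeFn_toLp] with z h1 h2
  rw [h1, h2]
  simp

theorem B4a_bound0 {N : ℕ} {f g : Conf N → ℂ} (hf : MemLp f 2 volume) (hg : MemLp g 2 volume) :
    ‖∫ z, f z * g z‖ ≤ B4a_n f * B4a_n g := by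
  rw [B4a_inner hf hg]
  refine (norm_inner_le_norm _ _).trans (le_of_eq ?_)
  rw [Lp.norm_toLp, Lp.norm_toLp, mul_comm]
  congr 1
  exact B4a_n_conj g

theorem B4a_memLp {N : ℕ} (V : VFlow N) (t : ℝ) {f : Conf N → ℂ} (hf : MemLp f 2 volume) :
    MemLp (fun z => f (V.φ t z)) 2 volume := hf.comp_measurePreserving (V.mp t)

theorem B4a_n_flow {N : ℕ} (V : VFlow N) (t : ℝ) {f : Conf N → ℂ} (hf : MemLp f 2 volume) :
    B4a_n (fun z => f (V.φ t z)) = B4a_n f := by
  unfold B4a_n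
  congr 1
  exact eLpNorm_comp_measurePreserving hf.aestronglyMeasurable (V.mp t)

theorem B4a_bound {N : ℕ} (V : VFlow N) (t : ℝ) {f g : Conf N → ℂ} (hf : MemLp f 2 volume)
    (hg : MemLp g 2 volume) : ‖∫ z, f (V.φ t z) * g z‖ ≤ B4a_n f * B4a_n g := by
  have := B4a_bound0 (B4a_memLp V t hf) hg
  rwa [B4a_n_flow V t hf] at this

theorem B4a_integrable {N : ℕ} (V : VFlow N) (t : ℝ) {f g : Conf N → ℂ} (hf : MemLp f 2 volume)
    (hg : MemLp g 2 volume) : Integrable (fun z => f (V.φ t z) * g z) :=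
  (B4a_memLp V t hf).integrable_mul hg

/-- change of both functions in the pairing -/
theorem B4a_diff {N : ℕ} (V : VFlow N) (t : ℝ) {f g f' g' : Conf N → ℂ}
    (hf : MemLp f 2 volume) (hg : MemLp g 2 volume) (hf' : MemLp f' 2 volume)
    (hg' : MemLp g' 2 volume) :
    ‖(∫ z, f (V.φ t z) * g z) - ∫ z, f' (V.φ t z) * g' z‖ ≤
      B4a_n (fun z => f z - f' z) * B4a_n g + B4a_n f' * B4a_n (fun z => g z - g' z) := by
  have h1 : (∫ z, f (V.φ t z) * g z) - ∫ z, f' (V.φ t z) * g' z =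
      (∫ z, (fun z => f z - f' z) (V.φ t z) * g z) +
        ∫ z, f' (V.φ t z) * (fun z => g z - g' z) z := by
    have ha : Integrable (fun z => (fun z => f z - f' z) (V.φ t z) * g z) :=
      B4a_integrable V t (hf.sub hf') hg
    have hb : Integrable (fun z => f' (V.φ t z) * (fun z => g z - g' z) z) :=
      B4a_integrable V t hf' (hg.sub hg')
    rw [← integral_add ha hb,
      ← integral_sub (B4a_integrable V t hf hg) (B4a_integrable V t hf' hg')]
    refine integral_congr_ae (Eventually.of_forall fun z => ?_)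
    simp only
    ring
  rw [h1]
  exact (norm_add_le _ _).trans (add_le_add (B4a_bound V t (hf.sub hf') hg)
    (B4a_bound V t hf' (hg.sub hg')))

/-- the mean ergodic theorem for the time one map -/
theorem B4a_mean {N : ℕ} (V : VFlow N) {f g : Conf N → ℂ} (hf : MemLp f 2 volume)
    (hg : MemLp g 2 volume) :
    ∃ l : ℂ, Tendsto (fun n : ℕ => (n : ℂ)⁻¹ * ∑ k ∈ Finset.range n,
      (fun t : ℝ => ∫ z, f (V.φ t z) * g z) k) atTop (𝓝 l) := by
  classical
  let U : Lp ℂ 2 (volume : Measure (Conf N)) →ₗᵢ[ℂ] Lp ℂ 2 (volume : Measure (Conf N)) :=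
    Lp.compMeasurePreservingₗᵢ ℂ (V.φ 1) (V.mp 1)
  have hU := ContinuousLinearMap.tendsto_birkhoffAverage_orthogonalProjection
    U.toContinuousLinearMap U.norm_toContinuousLinearMap_le (hf.toLp _)
  have hit : ∀ k : ℕ, (U.toContinuousLinearMap^[k] (hf.toLp f) : Conf N → ℂ) =ᵐ[volume]
      fun z => f (V.φ k z) := by
    intro k
    induction k with
    | zero =>
      simp only [Function.iterate_zero, id_eq, Nat.cast_zero]
      filter_upwards [hf.coeFn_toLp] with z hz
      rw [hz, V.zero]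
    | succ k ih =>
      rw [Function.iterate_succ_apply']
      have h1 : (U.toContinuousLinearMap (U.toContinuousLinearMap^[k] (hf.toLp f)) : Conf N → ℂ)
          =ᵐ[volume] (U.toContinuousLinearMap^[k] (hf.toLp f) : Conf N → ℂ) ∘ (V.φ 1) :=
        Lp.coeFn_compMeasurePreserving _ (V.mp 1)
      refine h1.trans ?_
      have h2 := (V.mp 1).quasiMeasurePreserving.ae_eq_comp ih
      refine h2.trans (Eventually.of_forall fun z => ?_)
      simp only [Function.comp]
      rw [← V.add]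
      congr 2
      push_cast
      ring
  have hin := (continuous_const (y := (B4a_conj hg).toLp _)).inner (𝕜 := ℂ) continuous_id |>.tendsto
    (((U.toContinuousLinearMap.eqLocus
      (1 : Lp ℂ 2 (volume : Measure (Conf N)) →L[ℂ] Lp ℂ 2 (volume : Measure (Conf N)))
      ).orthogonalProjectionOnto (hf.toLp f) : Lp ℂ 2 (volume : Measure (Conf N))))
  refine ⟨_, (hin.comp hU).congr fun n => ?_⟩
  simp only [Function.comp, id, birkhoffAverage, birkhoffSum]
  rw [inner_smul_right, inner_sum]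
  congr 1
  refine Finset.sum_congr rfl fun k _ => ?_
  rw [L2.inner_def]
  refine integral_congr_ae ?_
  filter_upwards [hit k, (B4a_conj hg).coeFn_toLp] with z h1 h2
  rw [h1, h2]
  simp [mul_comm]

/-- from continuity of dilations in `L²` to slow oscillation of the correlation -/
theorem B4a_slow {N : ℕ} (V : VFlow N) {f g : Conf N → ℂ} (hf : MemLp f 2 volume)
    (hg : MemLp g 2 volume)
    (hfr : ∀ r : ℝ, 0 < r → MemLp (fun z => f ((r : ℂ) • z)) 2 volume)
    (hgr : ∀ r : ℝ, 0 < r → MemLp (fun z => g ((r : ℂ) • z)) 2 volume)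
    (hfd : Tendsto (fun r : ℝ => eLpNorm (fun z => f ((r : ℂ) • z) - f z) 2 volume) (𝓝 1) (𝓝 0))
    (hgd : Tendsto (fun r : ℝ => eLpNorm (fun z => g ((r : ℂ) • z) - g z) 2 volume) (𝓝 1) (𝓝 0)) :
    ∀ ε > 0, ∃ d > 0, ∀ s t : ℝ, 0 < s → 0 < t → |s / t - 1| ≤ d →
      ‖(fun t : ℝ => ∫ z, f (V.φ t z) * g z) s - (fun t : ℝ => ∫ z, f (V.φ t z) * g z) t‖ ≤ ε := by
  intro ε hε
  set n := Module.finrank ℝ (Conf N) with hn
  -- the error as a function of `r`
  set E : ℝ → ℝ := fun r => |1 - (r ^ n)⁻¹| * (B4a_n f * B4a_n g) +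
    (B4a_n (fun z => f ((r : ℂ) • z) - f z) * (B4a_n g + B4a_n (fun z => g ((r : ℂ) • z) - g z)) +
      B4a_n f * B4a_n (fun z => g ((r : ℂ) • z) - g z)) with hE
  have hE0 : Tendsto E (𝓝 1) (𝓝 0) := by
    have h1 : Tendsto (fun r : ℝ => |1 - (r ^ n)⁻¹|) (𝓝 1) (𝓝 0) := by
      have : ContinuousAt (fun r : ℝ => |1 - (r ^ n)⁻¹|) 1 := by
        refine ContinuousAt.abs (ContinuousAt.sub continuousAt_const ?_)
        exact ContinuousAt.inv₀ (by fun_prop) (by simp)
      have h2 := this.tendsto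
      simpa using h2
    have h2 : Tendsto (fun r : ℝ => B4a_n (fun z => f ((r : ℂ) • z) - f z)) (𝓝 1) (𝓝 0) := by
      exact (ENNReal.tendsto_toReal ENNReal.zero_ne_top).comp hfd
    have h3 : Tendsto (fun r : ℝ => B4a_n (fun z => g ((r : ℂ) • z) - g z)) (𝓝 1) (𝓝 0) := by
      exact (ENNReal.tendsto_toReal ENNReal.zero_ne_top).comp hgd
    have h4 := (h1.mul_const (B4a_n f * B4a_n g)).add
      ((h2.mul ((tendsto_const_nhds (x := B4a_n g)).add h3)).add
        ((tendsto_const_nhds (x := B4a_n f)).mul h3))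
    have h5 : (0 : ℝ) * (B4a_n f * B4a_n g) + (0 * (B4a_n g + 0) + B4a_n f * 0) = 0 := by ring
    rw [h5] at h4
    exact h4
  -- comparison of the times `t` and `t / r ^ 2`
  have key : ∀ r : ℝ, 0 < r → ∀ t : ℝ,
      ‖(∫ z, f (V.φ (t / r ^ 2) z) * g z) - ∫ z, f (V.φ t z) * g z‖ ≤ E r := by
    intro r hr t
    have h1 := Measure.integral_comp_smul_of_nonneg (volume : Measure (Conf N))
      (fun z => f (V.φ t z) * g z) r (hR := hr.le)
    have h2 : ∫ z, (fun z => f (V.φ t z) * g z) (r • z) =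
        ∫ z, (fun z => f ((r : ℂ) • z)) (V.φ (t / r ^ 2) z) * (fun z => g ((r : ℂ) • z)) z := by
      refine integral_congr_ae (Eventually.of_forall fun z => ?_)
      have h3 : (r • z : Conf N) = (r : ℂ) • z := by
        funext i; simp [Pi.smul_apply]
      simp only [h3, V.scale r hr]
    rw [h2] at h1
    have h4 := B4a_diff V (t / r ^ 2) (hfr r hr) (hgr r hr) hf hg
    have h5 := B4a_bound V t hf hg
    rw [h1] at h4
    have h6 : B4a_n (fun z => g ((r : ℂ) • z)) ≤
        B4a_n g + B4a_n (fun z => g ((r : ℂ) • z) - g z) := by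
      have hsub : MemLp (fun z => g ((r : ℂ) • z) - g z) 2 volume := (hgr r hr).sub hg
      unfold B4a_n
      rw [← ENNReal.toReal_add hg.2.ne hsub.2.ne]
      refine ENNReal.toReal_mono (ENNReal.add_ne_top.2 ⟨hg.2.ne, hsub.2.ne⟩) ?_
      have h7 := eLpNorm_add_le (p := 2) hg.aestronglyMeasurable
        hsub.aestronglyMeasurable (by norm_num)
      refine le_trans (le_of_eq ?_) h7
      congr 1
      funext z
      simp
    have h8 : (∫ z, f (V.φ (t / r ^ 2) z) * g z) - ∫ z, f (V.φ t z) * g z =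
        -((1 : ℂ) - ((r ^ n)⁻¹ : ℝ)) * (∫ z, f (V.φ t z) * g z) -
        (((r ^ n)⁻¹ : ℝ) • (∫ z, f (V.φ t z) * g z) - ∫ z, f (V.φ (t / r ^ 2) z) * g z) := by
      rw [Complex.real_smul]
      ring
    rw [h8]
    refine (norm_sub_le _ _).trans ?_
    rw [hE]
    refine add_le_add ?_ ?_
    · rw [norm_mul, norm_neg]
      have h9 : ‖(1 : ℂ) - ((r ^ n)⁻¹ : ℝ)‖ = |1 - (r ^ n)⁻¹| := by
        rw [← Complex.ofReal_one, ← Complex.ofReal_sub, Complex.norm_real, Real.norm_eq_abs]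
      rw [h9]
      exact mul_le_mul_of_nonneg_left h5 (abs_nonneg _)
    · refine h4.trans (add_le_add ?_ le_rfl)
      exact mul_le_mul_of_nonneg_left h6 (B4a_n_nonneg _)
  -- choose `d`
  have hr : Tendsto (fun x : ℝ => √(x⁻¹)) (𝓝 1) (𝓝 1) := by
    have : ContinuousAt (fun x : ℝ => √(x⁻¹)) 1 :=
      ContinuousAt.sqrt (continuousAt_inv₀ one_ne_zero)
    have h2 := this.tendsto
    simpa using h2
  have hev := (hE0.comp hr).eventually (gt_mem_nhds hε)
  obtain ⟨d, hd, hdd⟩ := Metric.eventually_nhds_iff.1 hev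
  refine ⟨d / 2, by positivity, fun s t hs ht hst => ?_⟩
  have h1 : dist (s / t) 1 < d := by rw [Real.dist_eq]; linarith
  have h2 := hdd h1
  simp only [Function.comp] at h2
  have hx : 0 < (s / t)⁻¹ := by positivity
  have h3 := key (√((s / t)⁻¹)) (Real.sqrt_pos.2 hx) t
  have h4 : t / √((s / t)⁻¹) ^ 2 = s := by
    rw [Real.sq_sqrt hx.le]
    field_simp
  rw [h4] at h3
  exact h3.trans h2.le

/-- mixing for pairs of functions whose dilations are continuous -/
theorem B4a_mix {N : ℕ} (V : VFlow N) {f g : Conf N → ℂ} (hf : MemLp f 2 volume)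
    (hg : MemLp g 2 volume)
    (hfr : ∀ r : ℝ, 0 < r → MemLp (fun z => f ((r : ℂ) • z)) 2 volume)
    (hgr : ∀ r : ℝ, 0 < r → MemLp (fun z => g ((r : ℂ) • z)) 2 volume)
    (hfd : Tendsto (fun r : ℝ => eLpNorm (fun z => f ((r : ℂ) • z) - f z) 2 volume) (𝓝 1) (𝓝 0))
    (hgd : Tendsto (fun r : ℝ => eLpNorm (fun z => g ((r : ℂ) • z) - g z) 2 volume) (𝓝 1) (𝓝 0)) :
    ∃ l : ℂ, Tendsto (fun t : ℝ => ∫ z, f (V.φ t z) * g z) atTop (𝓝 l) := by
  obtain ⟨l, hl⟩ := B4a_mean V hf hg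
  exact ⟨l, tauber (B4a_slow V hf hg hfr hgr hfd hgd) hl⟩

theorem B4a_memLp_smul {N : ℕ} {f : Conf N → ℂ} (hf : Continuous f) (hs : HasCompactSupport f)
    {r : ℝ} (hr : 0 < r) : MemLp (fun z => f ((r : ℂ) • z)) 2 volume := by
  have h0 : (r : ℂ) ≠ 0 := by exact_mod_cast hr.ne'
  exact (hf.comp (continuous_const_smul (r : ℂ))).memLp_of_hasCompactSupport
    (hs.comp_isClosedEmbedding (Homeomorph.smulOfNeZero (r : ℂ) h0).isClosedEmbedding)

/-- **mixing**, from the continuity of dilations on `C_c` -/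
theorem B4a_mixing_of {N : ℕ} (V : VFlow N)
    (hdil : ∀ f : Conf N → ℂ, Continuous f → HasCompactSupport f →
      Tendsto (fun r : ℝ => eLpNorm (fun z => f ((r : ℂ) • z) - f z) 2 volume) (𝓝 1) (𝓝 0))
    {f g : Conf N → ℂ} (hf : MemLp f 2 volume) (hg : MemLp g 2 volume) :
    ∃ l : ℂ, Tendsto (fun t : ℝ => ∫ z, f (V.φ t z) * g z) atTop (𝓝 l) := by
  refine cauchySeq_tendsto_of_complete ?_
  rw [Metric.cauchySeq_iff]
  intro ε hε
  have hA : 0 ≤ B4a_n f := B4a_n_nonneg f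
  have hB : 0 ≤ B4a_n g := B4a_n_nonneg g
  -- a small number
  obtain ⟨δ, hδ, hδ1, hδe⟩ : ∃ δ : ℝ, 0 < δ ∧ δ ≤ 1 ∧
      δ * (B4a_n f + B4a_n g + 1) ≤ ε / 4 := by
    refine ⟨min 1 (ε / 4 / (B4a_n f + B4a_n g + 1)), lt_min one_pos (by positivity),
      min_le_left _ _, ?_⟩
    calc min 1 (ε / 4 / (B4a_n f + B4a_n g + 1)) * (B4a_n f + B4a_n g + 1)
        ≤ (ε / 4 / (B4a_n f + B4a_n g + 1)) * (B4a_n f + B4a_n g + 1) :=
          mul_le_mul_of_nonneg_right (min_le_right _ _) (by positivity)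
      _ = ε / 4 := by field_simp
  have hδ' : ENNReal.ofReal δ ≠ 0 := by simpa using hδ
  obtain ⟨f', hfs, hfd, hfc, hfm⟩ := hf.exists_hasCompactSupport_eLpNorm_sub_le (by norm_num) hδ'
  obtain ⟨g', hgs, hgd, hgc, hgm⟩ := hg.exists_hasCompactSupport_eLpNorm_sub_le (by norm_num) hδ'
  obtain ⟨l, hl⟩ := B4a_mix V hfm hgm (fun r hr => B4a_memLp_smul hfc hfs hr)
    (fun r hr => B4a_memLp_smul hgc hgs hr) (hdil f' hfc hfs) (hdil g' hgc hgs)
  obtain ⟨T, hT⟩ := Metric.tendsto_atTop.1 hl (ε / 4) (by positivity)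
  have hfn : B4a_n (fun z => f z - f' z) ≤ δ := by
    have := ENNReal.toReal_mono ENNReal.ofReal_ne_top hfd
    rwa [ENNReal.toReal_ofReal hδ.le] at this
  have hgn : B4a_n (fun z => g z - g' z) ≤ δ := by
    have := ENNReal.toReal_mono ENNReal.ofReal_ne_top hgd
    rwa [ENNReal.toReal_ofReal hδ.le] at this
  have hf'n : B4a_n f' ≤ B4a_n f + δ := by
    have hsub : MemLp (fun z => f z - f' z) 2 volume := hf.sub hfm
    have h1 : B4a_n f' ≤ B4a_n f + B4a_n (fun z => f z - f' z) := by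
      unfold B4a_n
      rw [← ENNReal.toReal_add hf.2.ne hsub.2.ne]
      refine ENNReal.toReal_mono (ENNReal.add_ne_top.2 ⟨hf.2.ne, hsub.2.ne⟩) ?_
      have h7 := eLpNorm_sub_le (p := 2) hf.aestronglyMeasurable
        hsub.aestronglyMeasurable (by norm_num)
      refine le_trans (le_of_eq ?_) h7
      congr 1
      funext z
      simp
    linarith
  have key : ∀ t : ℝ, ‖(∫ z, f (V.φ t z) * g z) - ∫ z, f' (V.φ t z) * g' z‖ ≤ ε / 4 := by
    intro t
    refine (B4a_diff V t hf hg hfm hgm).trans ?_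
    have h1 : B4a_n (fun z => f z - f' z) * B4a_n g ≤ δ * B4a_n g :=
      mul_le_mul_of_nonneg_right hfn hB
    have h2 : B4a_n f' * B4a_n (fun z => g z - g' z) ≤ (B4a_n f + 1) * δ :=
      mul_le_mul (hf'n.trans (by linarith)) hgn (B4a_n_nonneg _) (by positivity)
    nlinarith
  refine ⟨T, fun m hm n hn => ?_⟩
  have h1 := key m
  have h2 := key n
  have h3 := hT m hm
  have h4 := hT n hn
  rw [dist_eq_norm] at h3 h4 ⊢
  have h5 : (∫ z, f (V.φ m z) * g z) - (∫ z, f (V.φ n z) * g z) =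
      ((∫ z, f (V.φ m z) * g z) - ∫ z, f' (V.φ m z) * g' z) +
      ((∫ z, f' (V.φ m z) * g' z) - l) - (((∫ z, f (V.φ n z) * g z) - ∫ z, f' (V.φ n z) * g' z) +
      ((∫ z, f' (V.φ n z) * g' z) - l)) := by ring
  rw [h5]
  refine lt_of_le_of_lt (norm_sub_le _ _) ?_
  have h6 := norm_add_le ((∫ z, f (V.φ m z) * g z) - ∫ z, f' (V.φ m z) * g' z)
    ((∫ z, f' (V.φ m z) * g' z) - l)
  have h7 := norm_add_le ((∫ z, f (V.φ n z) * g z) - ∫ z, f' (V.φ n z) * g' z)
    ((∫ z, f' (V.φ n z) * g' z) - l)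
  linarith

/-- **no eigenfunctions**, from mixing -/
theorem B4a_no_eigen_of {N : ℕ} (V : VFlow N)
    (hmix : ∀ f g : Conf N → ℂ, MemLp f 2 volume → MemLp g 2 volume →
      ∃ l : ℂ, Tendsto (fun t : ℝ => ∫ z, f (V.φ t z) * g z) atTop (𝓝 l))
    {κ : ℝ} (hκ : κ ≠ 0) {g : Conf N → ℂ} (hg : MemLp g 2 volume)
    (he : ∀ s : ℝ, ∀ᵐ z, g (V.φ s z) = Complex.exp (κ * s * Complex.I) * g z) :
    g =ᵐ[volume] 0 := by
  obtain ⟨l, hl⟩ := hmix g (fun z => conj (g z)) hg (B4a_conj hg)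
  set c : ℂ := ∫ z, g z * conj (g z) with hc
  have h1 : ∀ t : ℝ, ∫ z, g (V.φ t z) * conj (g z) = Complex.exp (κ * t * Complex.I) * c := by
    intro t
    rw [hc, ← integral_const_mul]
    refine integral_congr_ae ?_
    filter_upwards [he t] with z hz
    rw [hz, mul_assoc]
  simp only [h1] at hl
  have h2 : Tendsto (fun t : ℝ => Complex.exp (κ * (t + Real.pi / κ) * Complex.I) * c) atTop
      (𝓝 l) := by
    have h3 := hl.comp (tendsto_atTop_add_const_right atTop (Real.pi / κ) tendsto_id)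
    refine h3.congr fun t => ?_
    simp
  have h4 : ∀ t : ℝ, Complex.exp (κ * (t + Real.pi / κ) * Complex.I) * c =
      -(Complex.exp (κ * t * Complex.I) * c) := by
    intro t
    have h5 : (κ : ℂ) * (t + Real.pi / κ) * Complex.I =
        κ * t * Complex.I + Real.pi * Complex.I := by
      have : (κ : ℂ) ≠ 0 := by exact_mod_cast hκ
      field_simp
    rw [h5, Complex.exp_add, Complex.exp_pi_mul_I]
    ring
  simp only [h4] at h2
  have h6 : l = -l := tendsto_nhds_unique h2 hl.neg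
  have h7 : l = 0 := by
    have : (2 : ℂ) * l = 0 := by linear_combination h6
    simpa using this
  have h8 : Tendsto (fun _ : ℝ => ‖c‖) atTop (𝓝 ‖l‖) := by
    refine hl.norm.congr fun t => ?_
    rw [norm_mul]
    have : ‖Complex.exp (κ * t * Complex.I)‖ = 1 := by
      rw [← Complex.ofReal_mul, Complex.norm_exp_ofReal_mul_I]
    rw [this, one_mul]
  have h9 : ‖c‖ = ‖l‖ := tendsto_nhds_unique tendsto_const_nhds h8
  rw [h7, norm_zero, norm_eq_zero] at h9
  -- the norm of `g` vanishes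
  have h10 : ∫ z, ‖g z‖ ^ 2 = 0 := by
    have h11 : c = ((∫ z, ‖g z‖ ^ 2 : ℝ) : ℂ) := by
      rw [hc, ← integral_complex_ofReal]
      refine integral_congr_ae (Eventually.of_forall fun z => ?_)
      simp only
      rw [Complex.mul_conj, Complex.normSq_eq_norm_sq]
    rw [h11] at h9
    exact_mod_cast h9
  have h12 : Integrable (fun z => ‖g z‖ ^ 2) := by
    have := hg.integrable_norm_pow (by norm_num)
    simpa using this
  rw [integral_eq_zero_iff_of_nonneg (fun z => by positivity) h12] at h10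
  filter_upwards [h10] with z hz
  have : ‖g z‖ ^ 2 = 0 := hz
  simpa using this

end

end Pool.Agent.Lib_helper25.PV
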